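import Pool.Agent.N988.EA.Stm

/-!
# Project EA (helper988): the laws of the effective couplings
-/

set_option autoImplicit false

open MeasureTheory Set
open scoped ENNReal

namespace Pool.Agent.N80.EA

open Pool.Agent.N988.EA

lemma meas_ph : Measurable (fun p : ℝ × ℝ => ph p.1 p.2) := by
  unfold ph
  have h1 : Measurable (fun p : ℝ × ℝ => Real.cosh (p.1 + p.2)) :=
    Real.continuous_cosh.measurable.comp (by fun_prop)
  have h2 : Measurable (fun p : ℝ × ℝ => Real.cosh (p.1 - p.2)) :=
    Real.continuous_cosh.measurable.comp (by fun_prop)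
  exact (Real.measurable_log.comp (h1.div h2)).div_const 2

lemma ph_neg (a b : ℝ) : ph (-a) b = -ph a b := by
  unfold ph
  have h1 : Real.cosh (-a + b) = Real.cosh (a - b) := by
    rw [← Real.cosh_neg]; congr 1; ring
  have h2 : Real.cosh (-a - b) = Real.cosh (a + b) := by
    rw [← Real.cosh_neg]; congr 1; ring
  rw [h1, h2, Real.log_div (Real.cosh_pos _).ne' (Real.cosh_pos _).ne',
    Real.log_div (Real.cosh_pos _).ne' (Real.cosh_pos _).ne']
  ring

/-- restriction to a half of a branch -/
def half {b n : ℕ} (i : Fin b) (h : Bool) (J : Edge b (n + 1) → ℝ) : Edge b n → ℝ :=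
  fun e => J (i, h, e)

lemma meas_half {b n : ℕ} (i : Fin b) (h : Bool) :
    Measurable (half i h : (Edge b (n + 1) → ℝ) → Edge b n → ℝ) := by
  unfold half
  exact measurable_pi_lambda _ fun e => measurable_pi_apply _

lemma meas_K (b : ℕ) : ∀ n : ℕ, Measurable (K n : (Edge b n → ℝ) → ℝ) := by
  intro n
  induction n with
  | zero => exact measurable_pi_apply _
  | succ n ih =>
    have h1 : (K (n + 1) : (Edge b (n + 1) → ℝ) → ℝ) =
        fun J => ∑ i : Fin b, ph (K n (half i false J)) (K n (half i true J)) := rfl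
    rw [h1]
    refine Finset.measurable_sum _ fun i _ => ?_
    have h2 : Measurable (fun J : Edge b (n + 1) → ℝ =>
        (K n (half i false J), K n (half i true J))) :=
      (ih.comp (meas_half i false)).prodMk (ih.comp (meas_half i true))
    exact Measurable.comp (g := fun p : ℝ × ℝ => ph p.1 p.2)
      (f := fun J : Edge b (n + 1) → ℝ => (K n (half i false J), K n (half i true J))) meas_ph h2

/-- currying of finite products -/
lemma mp_curry {α β : Type} [Fintype α] [Fintype β] [I : Fintype (α × β)] (μ : Measure ℝ)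
    [IsProbabilityMeasure μ] :
    MeasurePreserving (fun (J : α × β → ℝ) (a : α) (c : β) => J (a, c))
      (Measure.pi fun _ : α × β => μ) (Measure.pi fun _ : α => Measure.pi fun _ : β => μ) := by
  refine ⟨measurable_pi_lambda _ fun a => measurable_pi_lambda _ fun c => measurable_pi_apply _, ?_⟩
  have h1 := Measure.infinitePi_map_curry (ι := α) (κ := β) (fun _ _ => μ)
  have h2 : (Measure.infinitePi fun _ : α × β => μ) = Measure.pi fun _ : α × β => μ :=
    Measure.infinitePi_eq_pi _
  have h3 : (Measure.infinitePi fun _ : β => μ) = Measure.pi fun _ : β => μ :=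
    Measure.infinitePi_eq_pi _
  have h4 : (Measure.infinitePi fun _ : α => Measure.pi fun _ : β => μ) =
      Measure.pi fun _ : α => Measure.pi fun _ : β => μ := Measure.infinitePi_eq_pi _
  rw [h2] at h1
  simp only [h3] at h1
  rw [h4] at h1
  exact h1

/-- functions on two points -/
lemma mp_bool {X : Type} [MeasurableSpace X] (ν : Measure X) [IsProbabilityMeasure ν] :
    MeasurePreserving (fun g : Bool → X => (g false, g true)) (Measure.pi fun _ : Bool => ν)
      (ν.prod ν) := by
  refine ⟨(measurable_pi_apply _).prodMk (measurable_pi_apply _), ?_⟩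
  symm
  refine Measure.prod_eq fun s t hs ht => ?_
  rw [Measure.map_apply ((measurable_pi_apply _).prodMk (measurable_pi_apply _)) (hs.prod ht)]
  have h1 : (fun g : Bool → X => (g false, g true)) ⁻¹' (s ×ˢ t) =
      Set.pi univ fun h : Bool => if h then t else s := by
    ext g
    simp
  rw [h1, Measure.pi_pi, Fintype.prod_bool]
  simp [mul_comm]

section

variable (μ : Measure ℝ) [IsProbabilityMeasure μ] (b : ℕ)

/-- the branches -/
lemma mp_branches (n : ℕ) :
    MeasurePreserving (fun (J : Edge b (n + 1) → ℝ) (i : Fin b) (q : Bool × Edge b n) => J (i, q))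
      (P μ b (n + 1)) (Measure.pi fun _ : Fin b => Measure.pi fun _ : Bool × Edge b n => μ) :=
  mp_curry (α := Fin b) (β := Bool × Edge b n) μ

/-- the halves of a branch -/
lemma mp_halves (n : ℕ) :
    MeasurePreserving (fun (L : Bool × Edge b n → ℝ) => ((fun e => L (false, e)), fun e => L (true, e)))
      (Measure.pi fun _ : Bool × Edge b n => μ) ((P μ b n).prod (P μ b n)) :=
  (mp_bool (Measure.pi fun _ : Edge b n => μ)).comp (mp_curry (α := Bool) (β := Edge b n) μ)

instance instP (n : ℕ) : IsProbabilityMeasure (P μ b n) := by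
  unfold P; infer_instance

instance instBr (ν : Measure ℝ) [IsProbabilityMeasure ν] : IsProbabilityMeasure (br ν) :=
  Measure.isProbabilityMeasure_map meas_ph.aemeasurable

lemma meas_sum : Measurable (fun y : Fin b → ℝ => ∑ i, y i) :=
  Finset.measurable_sum _ fun i _ => measurable_pi_apply i

instance instLs (ν : Measure ℝ) [IsProbabilityMeasure ν] : IsProbabilityMeasure (lawstep b ν) :=
  Measure.isProbabilityMeasure_map (meas_sum b).aemeasurable

lemma lw_prob : ∀ n : ℕ, IsProbabilityMeasure (lw μ b n)
  | 0 => by unfold lw; infer_instance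
  | n + 1 => by
    have := lw_prob n
    unfold lw
    infer_instance

instance instLw (n : ℕ) : IsProbabilityMeasure (lw μ b n) := lw_prob μ b n

lemma mp_two {n : ℕ} (h : MeasurePreserving (K n) (P μ b n) (lw μ b n)) :
    MeasurePreserving (fun (L : Bool × Edge b n → ℝ) =>
      (K n (fun e => L (false, e)), K n (fun e => L (true, e))))
      (Measure.pi fun _ : Bool × Edge b n => μ) ((lw μ b n).prod (lw μ b n)) :=
  (h.prod h).comp (mp_halves μ b n)

lemma mp_K : ∀ n : ℕ, MeasurePreserving (K n) (P μ b n) (lw μ b n) := by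
  intro n
  induction n with
  | zero => exact measurePreserving_eval (fun _ : Edge b 0 => μ) ()
  | succ n ih =>
    have h0 : MeasurePreserving (fun p : ℝ × ℝ => ph p.1 p.2)
        ((lw μ b n).prod (lw μ b n)) (br (lw μ b n)) := ⟨meas_ph, rfl⟩
    have h1 := h0.comp (mp_two μ b ih)
    have h2 := measurePreserving_pi (fun _ : Fin b => Measure.pi fun _ : Bool × Edge b n => μ)
      (fun _ : Fin b => br (lw μ b n)) (fun _ => h1)
    have h3 : MeasurePreserving (fun y : Fin b → ℝ => ∑ i, y i)
        (Measure.pi fun _ : Fin b => br (lw μ b n)) (lw μ b (n + 1)) := ⟨meas_sum b, rfl⟩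
    have h4 := (h3.comp h2).comp (mp_branches μ b n)
    have h5 : (K (n + 1) : (Edge b (n + 1) → ℝ) → ℝ) =
        fun J => ∑ i : Fin b, ph (K n fun e => J (i, false, e)) (K n fun e => J (i, true, e)) := rfl
    rw [h5]
    simp only [Function.comp_def] at h4
    exact h4

lemma symm_br {ν : Measure ℝ} [IsProbabilityMeasure ν] (h : ν.map (fun x => -x) = ν) :
    (br ν).map (fun x => -x) = br ν := by
  have h1 : MeasurePreserving (fun x : ℝ => -x) ν ν := ⟨measurable_neg, h⟩
  have h2 := h1.prod (MeasurePreserving.id ν)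
  unfold br
  rw [Measure.map_map measurable_neg meas_ph]
  have h3 : (fun x : ℝ => -x) ∘ (fun p : ℝ × ℝ => ph p.1 p.2) =
      (fun p : ℝ × ℝ => ph p.1 p.2) ∘ (Prod.map (fun x : ℝ => -x) id) := by
    funext p
    simp only [Function.comp_apply, Prod.map_fst, Prod.map_snd, id_eq]
    rw [ph_neg]
  rw [h3, ← Measure.map_map meas_ph h2.measurable, h2.map_eq]

lemma symm_ls {ν : Measure ℝ} [IsProbabilityMeasure ν] (h : ν.map (fun x => -x) = ν) :
    (lawstep b ν).map (fun x => -x) = lawstep b ν := by
  have h1 : MeasurePreserving (fun x : ℝ => -x) (br ν) (br ν) := ⟨measurable_neg, symm_br h⟩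
  have h2 := measurePreserving_pi (fun _ : Fin b => br ν) (fun _ : Fin b => br ν) (fun _ => h1)
  unfold lawstep
  rw [Measure.map_map measurable_neg (meas_sum b)]
  have h3 : (fun x : ℝ => -x) ∘ (fun y : Fin b → ℝ => ∑ i, y i) =
      (fun y : Fin b → ℝ => ∑ i, y i) ∘ (fun (a : Fin b → ℝ) (i : Fin b) => -(a i)) := by
    funext y
    simp only [Function.comp_apply, Finset.sum_neg_distrib]
  rw [h3, ← Measure.map_map (meas_sum b) h2.measurable, h2.map_eq]

lemma symm_lw (h : μ.map (fun x => -x) = μ) : ∀ n : ℕ,
    (lw μ b n).map (fun x => -x) = lw μ b n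
  | 0 => h
  | n + 1 => symm_ls b (symm_lw h n)

end

/-- The laws of the effective couplings. -/
theorem t_H : S_H := by
  intro μ _ b n
  refine ⟨meas_K b n, (mp_K μ b n).map_eq, fun i h => ?_, fun i => ?_, fun h => symm_lw μ b h n⟩
  · have h1 := (measurePreserving_eval (fun _ : Fin b => Measure.pi fun _ : Bool × Edge b n => μ)
      i).comp (mp_branches μ b n)
    have h2 := (measurePreserving_eval (fun _ : Bool => Measure.pi fun _ : Edge b n => μ)
      h).comp ((mp_curry (α := Bool) (β := Edge b n) μ).comp h1)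
    exact h2.map_eq
  · have h1 := (measurePreserving_eval (fun _ : Fin b => Measure.pi fun _ : Bool × Edge b n => μ)
      i).comp (mp_branches μ b n)
    exact ((mp_two μ b (mp_K μ b n)).comp h1).map_eq

end Pool.Agent.N80.EA
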