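import Pool.Agent.N906.FH.Stm
import Pool.Agent.N966.SZ_DENS

/-!
# FH/DENS3: local densities of the conditions `Cs`
-/

set_option autoImplicit false

namespace Pool.Agent.N80.FH

open Finset Pool.Agent.N906.SZ Pool.Agent.N906.FH Pool.Agent.N966.SZ

/-- the local condition -/
def W3 (n p : ℕ) (a b : ℤ) : Prop :=
  ¬ ((p : ℤ) ^ 4 ∣ a ∧ (p : ℤ) ^ 6 ∣ b) ∧
    (p < 5 → (p : ℤ) ^ n.factorization p ∣ Dd a b) ∧
    (5 ≤ p → (¬ (p : ℤ) ∣ a ∧ (p : ℤ) ^ (n.factorization p + 1) ∣ Dd a b) ∨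
      ((p : ℤ) ∣ a ∧ (p : ℤ) ^ (n.factorization p + 7) ∣ Dd a b))

lemma loc3 {p g : ℕ} (hp : p.Prime) (h5 : 5 ≤ p) (hg : 1 ≤ g) : cl (p ^ (g + 1)) (fun a b =>
    ¬ ((p : ℤ) ^ 4 ∣ a ∧ (p : ℤ) ^ 6 ∣ b) ∧
      ((¬ (p : ℤ) ∣ a ∧ (p : ℤ) ^ (g + 1) ∣ Dd a b) ∨
      ((p : ℤ) ∣ a ∧ (p : ℤ) ^ (g + 7) ∣ Dd a b))) ≤ p ^ (g + 1) + 2 * p ^ (g - 1) := by
  have hq : p ^ (g + 1) ≠ 0 := pow_ne_zero _ hp.ne_zero
  have hpp := Nat.prime_iff_prime_int.1 hp
  have hA : cl (p ^ (g + 1)) (fun a b => (p : ℤ) ^ (g + 1) ∣ Dd a b ∧ ¬ (p : ℤ) ∣ a) ≤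
      p ^ (g + 1) := by
    refine cl_cusp hq fun a b h => ⟨by push_cast; exact h.1, Or.inl (unit2 hp h5 _ h.2)⟩
  have hB : cl (p ^ (g + 1)) (fun a b => ¬ ((p : ℤ) ^ 4 ∣ a ∧ (p : ℤ) ^ 6 ∣ b) ∧
      (p : ℤ) ^ (g + 7) ∣ Dd a b ∧ (p : ℤ) ∣ a) ≤ 2 * p ^ (g - 1) := by
    obtain ⟨k, rfl⟩ : ∃ k, g = k + 1 := ⟨g - 1, by omega⟩
    have h1 := cl_scale (Q := p ^ (k + 1 + 1)) (q := p ^ k) (I := 1) (J := 1)
      (pow_ne_zero _ hp.ne_zero) one_ne_zero one_ne_zero
      ((p : ℤ) ^ 2) ((p : ℤ) ^ 3)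
      (W := fun a b => ¬ ((p : ℤ) ^ 4 ∣ a ∧ (p : ℤ) ^ 6 ∣ b) ∧
        (p : ℤ) ^ (k + 1 + 7) ∣ Dd a b ∧ (p : ℤ) ∣ a)
      (W1 := fun a b => (p : ℤ) ^ k ∣ Dd a b ∧ ¬ ((p : ℤ) ^ 2 ∣ a ∧ (p : ℤ) ^ 3 ∣ b))
      (by push_cast; exact dvd_of_eq (by ring)) (by push_cast; exact ⟨p, by ring⟩)
      (by
        rintro a b ⟨h1, h2, h3⟩
        obtain ⟨⟨a1, rfl⟩, ⟨b1, rfl⟩⟩ := F4 hp h5 h3 ((pow_dvd_pow _ (by omega)).trans h2)
        refine ⟨a1, b1, rfl, rfl, ?_, ?_⟩
        · have h4 : Dd (p ^ 2 * a1) (p ^ 3 * b1) = (p : ℤ) ^ 6 * Dd a1 b1 := by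
            unfold Dd; ring
          rw [h4] at h2
          have h5 : (p : ℤ) ^ 6 * p ^ k ∣ (p : ℤ) ^ 6 * Dd a1 b1 := by
            rw [← pow_add]
            exact (pow_dvd_pow _ (by omega)).trans h2
          exact (mul_dvd_mul_iff_left (pow_ne_zero 6 hpp.ne_zero)).1 h5
        · rintro ⟨⟨a2, rfl⟩, ⟨b2, rfl⟩⟩
          exact h1 ⟨⟨a2, by ring⟩, ⟨b2, by ring⟩⟩)
    rw [Nat.add_sub_cancel, mul_one, mul_one] at *
    refine h1.trans ?_
    rcases Nat.eq_zero_or_pos k with rfl | hk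
    · have h2 := cl_triv (q := p ^ 0) (by simp)
        (fun a b => (p : ℤ) ^ 0 ∣ Dd a b ∧ ¬ ((p : ℤ) ^ 2 ∣ a ∧ (p : ℤ) ^ 3 ∣ b))
      refine h2.trans ?_
      simp
    · refine (loc1 hp h5 hk).trans (Nat.mul_le_mul_right _ ?_)
      split_ifs <;> omega
  refine (cl_or hq (W1 := fun a b => (p : ℤ) ^ (g + 1) ∣ Dd a b ∧ ¬ (p : ℤ) ∣ a)
    (W2 := fun a b => ¬ ((p : ℤ) ^ 4 ∣ a ∧ (p : ℤ) ^ 6 ∣ b) ∧
      (p : ℤ) ^ (g + 7) ∣ Dd a b ∧ (p : ℤ) ∣ a) ?_).trans (Nat.add_le_add hA hB)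
  rintro a b ⟨h1, h2 | h2⟩
  · exact Or.inl ⟨h2.2, h2.1⟩
  · exact Or.inr ⟨h1, h2.2, h2.1⟩

lemma loc3_all {n p : ℕ} (hp : p ∈ n.primeFactors) :
    (cl (qq n p) (W3 n p) : ℝ) ≤
      ((if p < 5 then 3 ^ 14 else 1 : ℕ) : ℝ) * (Real.exp (2 * (1 / (p : ℝ) ^ 2)) * qq n p) := by
  have hpp := Nat.prime_of_mem_primeFactors hp
  have hp0 : (0 : ℝ) < p := by exact_mod_cast hpp.pos
  have hg : 1 ≤ n.factorization p := by
    have h1 := (Nat.prime_of_mem_primeFactors hp).factorization_pos_of_dvd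
      (Nat.mem_primeFactors.1 hp).2.2 (Nat.dvd_of_mem_primeFactors hp)
    exact h1
  by_cases h5 : 5 ≤ p
  · have h1 := loc3 hpp h5 hg
    rw [if_neg (by omega), Nat.cast_one, one_mul]
    have h2 : qq n p = p ^ (n.factorization p + 1) := by unfold qq; rw [if_pos h5]
    rw [h2]
    have h3 : cl (p ^ (n.factorization p + 1)) (W3 n p) ≤
        p ^ (n.factorization p + 1) + 2 * p ^ (n.factorization p - 1) := by
      refine le_trans (cl_mono (pow_ne_zero _ hpp.ne_zero) ?_) h1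
      rintro a b ⟨h6, -, h7⟩
      exact ⟨h6, h7 h5⟩
    have h4 : ((cl (p ^ (n.factorization p + 1)) (W3 n p) : ℕ) : ℝ) ≤
        (p : ℝ) ^ (n.factorization p + 1) + 2 * (p : ℝ) ^ (n.factorization p - 1) := by
      exact_mod_cast h3
    refine h4.trans ?_
    have h6 : (p : ℝ) ^ (n.factorization p + 1) =
        (p : ℝ) ^ (n.factorization p - 1) * (p : ℝ) ^ 2 := by
      rw [← pow_add]
      congr 1
      omega
    have h7 : (1 : ℝ) + 2 * (1 / (p : ℝ) ^ 2) ≤ Real.exp (2 * (1 / (p : ℝ) ^ 2)) := by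
      have := Real.add_one_le_exp (2 * (1 / (p : ℝ) ^ 2))
      linarith
    calc (p : ℝ) ^ (n.factorization p + 1) + 2 * (p : ℝ) ^ (n.factorization p - 1)
        = (1 + 2 * (1 / (p : ℝ) ^ 2)) * (p : ℝ) ^ (n.factorization p + 1) := by
          rw [h6]
          field_simp
      _ ≤ Real.exp (2 * (1 / (p : ℝ) ^ 2)) * (p : ℝ) ^ (n.factorization p + 1) :=
          mul_le_mul_of_nonneg_right h7 (by positivity)
      _ = _ := by push_cast; ring
  · have h23 : p = 2 ∨ p = 3 := by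
      have h2 := hpp.two_le
      have h3 : p ≠ 4 := by
        rintro rfl
        revert hpp
        decide
      omega
    have h1 := loc_small (g := n.factorization p) h23
    rw [if_pos (by omega)]
    have h2 : qq n p = p ^ n.factorization p := by unfold qq; rw [if_neg h5, add_zero]
    rw [h2]
    have h3 : cl (p ^ n.factorization p) (W3 n p) ≤ 3 ^ 14 * p ^ n.factorization p := by
      refine le_trans (cl_mono (pow_ne_zero _ hpp.ne_zero) ?_) h1
      rintro a b ⟨h6, h7, -⟩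
      refine ⟨h6, ?_⟩
      rw [fe, if_pos (by omega), add_zero]
      exact h7 (by omega)
    have h4 : ((cl (p ^ n.factorization p) (W3 n p) : ℕ) : ℝ) ≤
        ((3 ^ 14 : ℕ) : ℝ) * ((p ^ n.factorization p : ℕ) : ℝ) := by
      exact_mod_cast h3
    refine h4.trans (mul_le_mul_of_nonneg_left ?_ (by positivity))
    have h5 : (1 : ℝ) ≤ Real.exp (2 * (1 / (p : ℝ) ^ 2)) := Real.one_le_exp (by positivity)
    exact le_mul_of_one_le_left (by positivity) h5

theorem dens3 : S_DENS3 := by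
  classical
  have hsum : Summable (fun m : ℕ => 2 * (1 / (m : ℝ) ^ 2)) :=
    (Real.summable_one_div_nat_pow.2 (by norm_num)).mul_left 2
  refine ⟨((3 ^ 14 * 3 ^ 14 : ℕ) : ℝ) * Real.exp (∑' m : ℕ, 2 * (1 / (m : ℝ) ^ 2)),
    by positivity, ?_⟩
  intro n hn
  have hn0 : n ≠ 0 := by omega
  have hM := prod_qq hn0
  have hdvd : ∀ p ∈ n.primeFactors, qq n p ∣ n * rd n := fun p hp => by
    rw [← hM]
    exact dvd_prod_of_mem _ hp
  refine ⟨fun a b => ∀ p ∈ n.primeFactors, ∃ a' b' : ℤ, W3 n p a' b' ∧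
    (a' : ZMod (qq n p)) = (a : ZMod (qq n p)) ∧ (b' : ZMod (qq n p)) = (b : ZMod (qq n p)),
    ?_, ?_, ?_, ?_⟩
  · intro a b
    refine forall₂_congr fun p hp => ?_
    have h1 : (((n * rd n : ℕ) : ℤ) : ZMod (qq n p)) = 0 := by
      rw [Int.cast_natCast]
      exact (ZMod.natCast_eq_zero_iff _ _).2 (hdvd p hp)
    simp only [Int.cast_add, h1, add_zero]
  · intro a b
    refine forall₂_congr fun p hp => ?_
    have h1 : (((n * rd n : ℕ) : ℤ) : ZMod (qq n p)) = 0 := by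
      rw [Int.cast_natCast]
      exact (ZMod.natCast_eq_zero_iff _ _).2 (hdvd p hp)
    simp only [Int.cast_add, h1, add_zero]
  · intro a b hmn hcn p hp
    exact ⟨a, b, ⟨hmn.2 p (Nat.prime_of_mem_primeFactors hp), (hcn p hp).1, (hcn p hp).2⟩,
      rfl, rfl⟩
  · intro F hF
    -- the map to the product of the local sets
    have hne : ∀ p : n.primeFactors, NeZero (qq n p) := fun p =>
      ⟨pow_ne_zero _ (Nat.prime_of_mem_primeFactors p.2).ne_zero⟩
    let S : ∀ p : n.primeFactors, Finset (ZMod (qq n p) × ZMod (qq n p)) :=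
      fun p => (Set.toFinite (Cl (qq n p) (W3 n p))).toFinset
    have hcard : F.card ≤ ∏ p : n.primeFactors, (S p).card := by
      rw [← Fintype.card_piFinset]
      refine card_le_card_of_injOn
        (fun x p => ((x.1 : ZMod (qq n p)), (x.2 : ZMod (qq n p)))) ?_ ?_
      · intro x hx
        rw [mem_coe, Fintype.mem_piFinset]
        intro p
        rw [Set.Finite.mem_toFinset]
        obtain ⟨a, b, hW, ha, hb⟩ := (hF x hx).2.2.2.2 p p.2
        exact ⟨a, b, hW, ha, hb⟩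
      · intro x hx y hy hxy
        have key : ∀ c d : ℤ, 0 ≤ c → c < (n * rd n : ℕ) → 0 ≤ d → d < (n * rd n : ℕ) →
            (∀ p ∈ n.primeFactors, (c : ZMod (qq n p)) = (d : ZMod (qq n p))) → c = d := by
          intro c d hc1 hc2 hd1 hd2 h
          have h1 : ((n * rd n : ℕ) : ℤ) ∣ c - d := by
            rw [← hM, Nat.cast_prod]
            refine Finset.prod_dvd_of_coprime ?_ ?_
            · intro p hp q hq hpq
              have hc : Nat.Coprime (qq n p) (qq n q) := by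
                unfold qq
                refine Nat.Coprime.pow _ _ ?_
                exact (Nat.coprime_primes (Nat.prime_of_mem_primeFactors hp)
                  (Nat.prime_of_mem_primeFactors hq)).2 hpq
              exact Nat.isCoprime_iff_coprime.2 hc
            · intro p hp
              exact (ZMod.intCast_eq_intCast_iff_dvd_sub _ _ _).1 (h p hp).symm
          have h2 : |c - d| < (n * rd n : ℕ) := by
            rw [abs_lt]
            constructor <;> linarith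
          have h3 := Int.eq_zero_of_abs_lt_dvd h1 h2
          linarith
        obtain ⟨h1, h2, h3, h4, -⟩ := hF x hx
        obtain ⟨h5, h6, h7, h8, -⟩ := hF y hy
        refine Prod.ext (key _ _ h1 h2 h5 h6 fun p hp => ?_) (key _ _ h3 h4 h7 h8 fun p hp => ?_)
        · exact congrArg Prod.fst (congrFun hxy ⟨p, hp⟩)
        · exact congrArg Prod.snd (congrFun hxy ⟨p, hp⟩)
    have h1 : ∀ p : n.primeFactors, (S p).card = cl (qq n p) (W3 n p) := fun p => by
      unfold cl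
      rw [Set.ncard_eq_toFinset_card _ (Set.toFinite _)]
    simp only [h1] at hcard
    rw [Finset.prod_coe_sort n.primeFactors (fun p => cl (qq n p) (W3 n p))] at hcard
    have h3 : (∏ p ∈ n.primeFactors, if p < 5 then 3 ^ 14 else 1) ≤ 3 ^ 14 * 3 ^ 14 := by
      rw [← prod_filter, prod_const]
      have h4 : (n.primeFactors.filter fun p => p < 5) ⊆ {2, 3} := by
        intro p hp
        rw [mem_filter] at hp
        have h5 := (Nat.prime_of_mem_primeFactors hp.1).two_le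
        have h6 : p ≠ 4 := by
          rintro rfl
          have := Nat.prime_of_mem_primeFactors hp.1
          revert this
          decide
        have h7 := hp.2
        have : p = 2 ∨ p = 3 := by omega
        simp only [mem_insert, mem_singleton]
        exact this
      have h5 := card_le_card h4
      have h6 : ({2, 3} : Finset ℕ).card = 2 := rfl
      calc (3 ^ 14) ^ (n.primeFactors.filter fun p => p < 5).card ≤ (3 ^ 14) ^ 2 :=
            Nat.pow_le_pow_right (by norm_num) (by omega)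
        _ = 3 ^ 14 * 3 ^ 14 := by norm_num
    have h5 : (∏ p ∈ n.primeFactors, Real.exp (2 * (1 / (p : ℝ) ^ 2))) ≤
        Real.exp (∑' m : ℕ, 2 * (1 / (m : ℝ) ^ 2)) := by
      rw [← Real.exp_sum]
      exact Real.exp_le_exp.2 (hsum.sum_le_tsum _ fun i _ => by positivity)
    have h6 : (∏ p ∈ n.primeFactors, ((qq n p : ℕ) : ℝ)) = ((n * rd n : ℕ) : ℝ) := by
      rw [← Nat.cast_prod, hM]
    calc (F.card : ℝ) ≤ ((∏ p ∈ n.primeFactors, cl (qq n p) (W3 n p) : ℕ) : ℝ) := by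
          exact_mod_cast hcard
      _ = ∏ p ∈ n.primeFactors, ((cl (qq n p) (W3 n p) : ℕ) : ℝ) := by rw [Nat.cast_prod]
      _ ≤ ∏ p ∈ n.primeFactors, (((if p < 5 then 3 ^ 14 else 1 : ℕ) : ℝ) *
          (Real.exp (2 * (1 / (p : ℝ) ^ 2)) * qq n p)) :=
          prod_le_prod (fun _ _ => by positivity) fun p hp => loc3_all hp
      _ = ((∏ p ∈ n.primeFactors, (if p < 5 then 3 ^ 14 else 1 : ℕ) : ℕ) : ℝ) *
          ((∏ p ∈ n.primeFactors, Real.exp (2 * (1 / (p : ℝ) ^ 2))) * (n * rd n : ℕ)) := by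
          rw [prod_mul_distrib, prod_mul_distrib, h6, Nat.cast_prod]
      _ ≤ ((3 ^ 14 * 3 ^ 14 : ℕ) : ℝ) *
          (Real.exp (∑' m : ℕ, 2 * (1 / (m : ℝ) ^ 2)) * (n * rd n : ℕ)) := by
          refine mul_le_mul (by exact_mod_cast h3) (mul_le_mul_of_nonneg_right h5 (by positivity))
            ?_ (by positivity)
          exact mul_nonneg (prod_nonneg fun _ _ => (Real.exp_pos _).le) (by positivity)
      _ = _ := by ring

end Pool.Agent.N80.FH
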