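import Pool.Agent.N585.PT.Defs

/-!
# PT/1 (helper80): elementary transformations of an embedding do not interfere
-/

set_option autoImplicit false

namespace Pool.Agent.N80.PT

open Pool.Agent.N585.PT

/-- A closed walk of length four in the grid without reversals is a unit square. -/
private lemma square (x0 y0 x1 y1 x2 y2 x3 y3 : ℤ)
    (h01 : GAdj (x0, y0) (x1, y1)) (h12 : GAdj (x1, y1) (x2, y2)) (h23 : GAdj (x2, y2) (x3, y3))
    (h03 : GAdj (x0, y0) (x3, y3)) (n02 : ¬ (x0 = x2 ∧ y0 = y2)) (n13 : ¬ (x1 = x3 ∧ y1 = y3)) :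
    x0 + x2 = x1 + x3 ∧ y0 + y2 = y1 + y3 := by
  unfold GAdj at *
  simp only at *
  rw [abs_eq (by norm_num), abs_eq (by norm_num)] at *
  rcases h01 with ⟨a1, a2 | a2⟩ | ⟨a1, a2 | a2⟩ <;> rcases h12 with ⟨b1, b2 | b2⟩ | ⟨b1, b2 | b2⟩ <;>
    rcases h23 with ⟨c1, c2 | c2⟩ | ⟨c1, c2 | c2⟩ <;> omega

private lemma square' (P0 P1 P2 P3 : ℤ × ℤ) (h01 : GAdj P0 P1) (h12 : GAdj P1 P2) (h23 : GAdj P2 P3)
    (h03 : GAdj P0 P3) (n02 : P0 ≠ P2) (n13 : P1 ≠ P3) : P0 + P2 = P1 + P3 := by
  obtain ⟨x0, y0⟩ := P0
  obtain ⟨x1, y1⟩ := P1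
  obtain ⟨x2, y2⟩ := P2
  obtain ⟨x3, y3⟩ := P3
  have := square x0 y0 x1 y1 x2 y2 x3 y3 h01 h12 h23 h03
    (fun h => n02 (by rw [h.1, h.2])) (fun h => n13 (by rw [h.1, h.2]))
  ext
  · exact this.1
  · exact this.2

private lemma not_straight (p : ℕ → ℤ × ℤ) (i : ℕ) (h : ¬ Straight p i (i + 2)) :
    p (i + 1) - p i ≠ p (i + 2) - p (i + 1) := by
  intro he
  apply h
  intro k l h1 h2 h3 h4
  have hk : k = i ∨ k = i + 1 := by omega
  have hl : l = i ∨ l = i + 1 := by omega
  rcases hk with rfl | rfl <;> rcases hl with rfl | rfl <;> first | rfl | exact he | exact he.symm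

theorem stmOk : StmOk := by
  classical
  intro n p A t hE hA
  refine ⟨A.filter fun a => 1 ≤ t a, ?_, ?_⟩
  · intro a ha
    rw [Finset.mem_filter] at ha
    obtain ⟨haA, hta⟩ := ha
    obtain ⟨a1, a2, a3, a4, a5, a6, a7, a8, a9⟩ := hA a haA
    refine ⟨hta, a5, a7, ?_⟩
    intro b hb hba
    rw [Finset.mem_filter] at hb
    obtain ⟨hbA, htb⟩ := hb
    obtain ⟨b1, b2, b3, b4, b5, b6, b7, b8, b9⟩ := hA b hbA
    -- the four turning conditions
    have ea1 : p a - p (a - 1) ≠ p (a + 1) - p a := by
      have := not_straight p (a - 1) (by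
        have : a - 1 + 2 = a + 1 := by omega
        rw [this]; exact a3)
      have e1 : a - 1 + 1 = a := by omega
      have e2 : a - 1 + 2 = a + 1 := by omega
      rw [e1, e2] at this
      exact this
    have ea2 : p (a + 1) - p a ≠ p (a + 2) - p (a + 1) := not_straight p a a4
    have eb1 : p b - p (b - 1) ≠ p (b + 1) - p b := by
      have := not_straight p (b - 1) (by
        have : b - 1 + 2 = b + 1 := by omega
        rw [this]; exact b3)
      have e1 : b - 1 + 1 = b := by omega
      have e2 : b - 1 + 2 = b + 1 := by omega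
      rw [e1, e2] at this
      exact this
    have eb2 : p (b + 1) - p b ≠ p (b + 2) - p (b + 1) := not_straight p b b4
    by_cases hab : a = b + 1
    · exfalso
      subst hab
      have ta1 : t (b + 1) = 1 := by
        by_contra hne
        have h2 : 2 ≤ t (b + 1) := by omega
        have := a6 (b - 1) b (by omega) (by omega) (by omega) (by omega)
        have e1 : b - 1 + 1 = b := by omega
        rw [e1] at this
        exact eb1 this
      have tb1 : t b = 1 := by
        by_contra hne
        have h2 : 2 ≤ t b := by omega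
        have := b8 (b + 1) (b + 2) (by omega) (by omega) (by omega) (by omega)
        exact ea2 this
      rw [ta1] at a9
      rw [tb1] at b9
      have e1 : b - 1 + 1 = b := by omega
      have g01 : GAdj (p (b - 1)) (p b) := by
        have := hE.1 (b - 1) (by omega)
        rw [e1] at this
        exact this
      have g12 : GAdj (p b) (p (b + 1)) := hE.1 b (by omega)
      have g23 : GAdj (p (b + 1)) (p (b + 2)) := hE.1 (b + 1) (by omega)
      have g34 : GAdj (p (b + 2)) (p (b + 3)) := hE.1 (b + 2) (by omega)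
      have g03 : GAdj (p (b - 1)) (p (b + 2)) := b9
      have g14 : GAdj (p b) (p (b + 3)) := a9
      have s1 := square' _ _ _ _ g01 g12 g23 g03
        (fun h => by have := hE.2 _ _ (by omega) (by omega) h; omega)
        (fun h => by have := hE.2 _ _ (by omega) (by omega) h; omega)
      have s2 := square' _ _ _ _ g12 g23 g34 g14
        (fun h => by have := hE.2 _ _ (by omega) (by omega) h; omega)
        (fun h => by have := hE.2 _ _ (by omega) (by omega) h; omega)
      have s3 : p (b - 1) = p (b + 3) := by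
        have : p (b - 1) + p (b + 1) = p (b + 3) + p (b + 1) := by
          rw [s1, s2, add_comm]
        exact add_right_cancel this
      have := hE.2 _ _ (by omega) (by omega) s3
      omega
    · constructor
      · by_contra hcon
        have := b8 (a - 1) a (by omega) (by omega) (by omega) (by omega)
        have e1 : a - 1 + 1 = a := by omega
        rw [e1] at this
        exact ea1 this
      · by_contra hcon
        have := a6 b (b + 1) (by omega) (by omega) (by omega) (by omega)
        exact eb2 this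
  · unfold trG
    congr 1
    ext i j
    constructor
    · rintro (⟨h1, h2⟩ | ⟨a, ha, h1, h2⟩)
      · refine Or.inl ⟨h1, fun h => h2 (Finset.mem_filter.mp h).1⟩
      · by_cases h0 : 1 ≤ t a
        · exact Or.inr ⟨a, Finset.mem_filter.mpr ⟨ha, h0⟩, h1, h2⟩
        · refine Or.inl ⟨by omega, fun h => ?_⟩
          have hi : i.1 = a := by omega
          rw [hi] at h
          exact h0 (Finset.mem_filter.mp h).2
    · rintro (⟨h1, h2⟩ | ⟨a, ha, h1, h2⟩)
      · by_cases hi : i.1 ∈ A
        · have h0 : ¬ 1 ≤ t i.1 := fun h => h2 (Finset.mem_filter.mpr ⟨hi, h⟩)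
          exact Or.inr ⟨i.1, hi, by omega, by omega⟩
        · exact Or.inl ⟨h1, hi⟩
      · exact Or.inr ⟨a, (Finset.mem_filter.mp ha).1, h1, h2⟩

end Pool.Agent.N80.PT
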